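import Pool.Agent.Helper64.Rig.Goals

/-! # Packet TrivAlg: the algebra of trivialisations -/

set_option autoImplicit false

namespace Pool.Agent.Helper77.Rig

open MvPolynomial Pool.Agent.Helper64.Rig

section
variable {σ : Type} {R : Type} [CommRing R] {A' : Type} [CommRing A'] {A'' : Type} [CommRing A'']

/-- Base change of a linear map. -/
noncomputable def bc (π : MvPolynomial σ R →ₗ[R] MvPolynomial σ R) (f : R →+* A') :
    MvPolynomial σ A' →ₗ[A'] MvPolynomial σ A' :=
  (basisMonomials σ A').constr ℕ (fun α => map f (π (monomial α 1)))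

theorem bc_monomial (π : MvPolynomial σ R →ₗ[R] MvPolynomial σ R) (f : R →+* A')
    (α : σ →₀ ℕ) (a : A') :
    bc π f (monomial α a) = C a * map f (π (monomial α 1)) := by
  have h1 : (monomial α a : MvPolynomial σ A') = a • (basisMonomials σ A') α := by
    rw [coe_basisMonomials, smul_monomial, smul_eq_mul, mul_one]
  unfold bc
  rw [h1, map_smul, Module.Basis.constr_basis, smul_eq_C_mul]

theorem bc_C_mul (π : MvPolynomial σ R →ₗ[R] MvPolynomial σ R) (f : R →+* A')
    (a : A') (z : MvPolynomial σ A') : bc π f (C a * z) = C a * bc π f z := by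
  rw [← smul_eq_C_mul, map_smul, smul_eq_C_mul]

theorem bc_map (π : MvPolynomial σ R →ₗ[R] MvPolynomial σ R) (f : R →+* A')
    (w : MvPolynomial σ R) : bc π f (map f w) = map f (π w) := by
  induction w using MvPolynomial.induction_on' with
  | monomial u a =>
    have h1 : (monomial u a : MvPolynomial σ R) = a • monomial u 1 := by
      rw [smul_monomial, smul_eq_mul, mul_one]
    rw [map_monomial, bc_monomial, h1, map_smul, smul_eq_C_mul, map_mul, map_C]
  | add p q hp hq => rw [map_add, map_add, hp, hq, map_add, map_add]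

theorem bc_comp (π : MvPolynomial σ R →ₗ[R] MvPolynomial σ R) (f : R →+* A') (h : A' →+* A'')
    (z : MvPolynomial σ A') : map h (bc π f z) = bc π (h.comp f) (map h z) := by
  induction z using MvPolynomial.induction_on' with
  | monomial u a =>
    rw [map_monomial, bc_monomial, bc_monomial, map_mul, map_C, map_map]
  | add p q hp hq => rw [map_add, map_add, hp, hq, map_add, map_add]

theorem sub_bc_mem {J : Ideal (MvPolynomial σ R)} {m : ℕ}
    {π : MvPolynomial σ R →ₗ[R] MvPolynomial σ R}
    (hπ : ∀ z : MvPolynomial σ R, z.IsHomogeneous m → z - π z ∈ J) (f : R →+* A')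
    {z : MvPolynomial σ A'} (hz : z.IsHomogeneous m) : z - bc π f z ∈ J.map (map f) := by
  have h1 : z - bc π f z = ∑ α ∈ z.support, (monomial α (coeff α z) -
      bc π f (monomial α (coeff α z))) := by
    rw [Finset.sum_sub_distrib, ← map_sum, ← z.as_sum]
  rw [h1]
  refine Ideal.sum_mem _ fun α hα => ?_
  have h2 : (monomial α (1 : R) : MvPolynomial σ R).IsHomogeneous m := by
    apply isHomogeneous_monomial
    by_contra hne
    exact (mem_support_iff.1 hα) (hz.coeff_eq_zero hne)
  have h3 := hπ _ h2
  rw [bc_monomial]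
  have h4 : (monomial α (coeff α z) : MvPolynomial σ A') =
      C (coeff α z) * map f (monomial α 1) := by
    rw [map_monomial, map_one, C_mul_monomial, mul_one]
  rw [h4, ← mul_sub, ← map_sub]
  exact Ideal.mul_mem_left _ _ (Ideal.mem_map_of_mem _ h3)

theorem bc_aux {J : Ideal (MvPolynomial σ R)} (hJ : ∀ G ∈ J, ∀ d, homogeneousComponent d G ∈ J)
    {m : ℕ} {π : MvPolynomial σ R →ₗ[R] MvPolynomial σ R}
    (hπ : ∀ z : MvPolynomial σ R, z.IsHomogeneous m → z ∈ J → π z = 0) (f : R →+* A')
    (j : MvPolynomial σ R) (hj : j ∈ J) (c : MvPolynomial σ A') :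
    bc π f (homogeneousComponent m (c * map f j)) = 0 := by
  induction c using MvPolynomial.induction_on' with
  | add p q hp hq => rw [add_mul, map_add, map_add, hp, hq, add_zero]
  | monomial β a =>
    have h1 : j = ∑ i ∈ Finset.range (j.totalDegree + 1), homogeneousComponent i j :=
      (sum_homogeneousComponent j).symm
    conv_lhs => rw [h1]
    rw [map_sum, Finset.mul_sum, map_sum, map_sum]
    refine Finset.sum_eq_zero fun i _ => ?_
    have h2 : (homogeneousComponent i j).IsHomogeneous i := homogeneousComponent_isHomogeneous i j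
    have h3 : ((monomial β (1 : R)) * homogeneousComponent i j).IsHomogeneous (β.degree + i) :=
      (isHomogeneous_monomial (1 : R) rfl).mul h2
    have h4 : (monomial β a : MvPolynomial σ A') * map f (homogeneousComponent i j) =
        C a * map f (monomial β 1 * homogeneousComponent i j) := by
      rw [map_mul, map_monomial, map_one, ← mul_assoc, C_mul_monomial, mul_one]
    have h5 : (C a * map f (monomial β 1 * homogeneousComponent i j) :
        MvPolynomial σ A').IsHomogeneous (β.degree + i) := (h3.map f).C_mul a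
    rw [h4, homogeneousComponent_of_mem ((mem_homogeneousSubmodule _ _).2 h5)]
    split_ifs with h6
    · rw [bc_C_mul, bc_map, hπ _ (h6 ▸ h3) (Ideal.mul_mem_left _ _ (hJ j hj i)), map_zero,
        mul_zero]
    · exact map_zero _

theorem bc_eq_zero {J : Ideal (MvPolynomial σ R)}
    (hJ : ∀ G ∈ J, ∀ d, homogeneousComponent d G ∈ J)
    {m : ℕ} {π : MvPolynomial σ R →ₗ[R] MvPolynomial σ R}
    (hπ : ∀ z : MvPolynomial σ R, z.IsHomogeneous m → z ∈ J → π z = 0) (f : R →+* A')
    {z : MvPolynomial σ A'} (hz : z.IsHomogeneous m) (h : z ∈ J.map (map f)) :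
    bc π f z = 0 := by
  have key : ∀ w ∈ J.map (map f), ∀ c : MvPolynomial σ A',
      bc π f (homogeneousComponent m (c * w)) = 0 := by
    intro w hw
    induction hw using Submodule.span_induction with
    | mem w hw =>
      obtain ⟨j, hj, rfl⟩ := hw
      exact bc_aux hJ hπ f j hj
    | zero => intro c; rw [mul_zero, map_zero, map_zero]
    | add p q _ _ hp hq => intro c; rw [mul_add, map_add, map_add, hp, hq, add_zero]
    | smul a p _ hp => intro c; rw [smul_eq_mul, ← mul_assoc]; exact hp _
  have h1 := key z h 1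
  rwa [one_mul, homogeneousComponent_of_mem ((mem_homogeneousSubmodule _ _).2 hz),
    if_pos rfl] at h1

end

section
variable {σ : Type} [Fintype σ]

theorem map_lin {R A' : Type} [CommRing R] [CommRing A'] (f : R →+* A') (g : Matrix σ σ R)
    (G : MvPolynomial σ R) : map f (lin g G) = lin (g.map f) (map f G) := by
  induction G using MvPolynomial.induction_on with
  | C a =>
    unfold lin
    rw [aeval_C, map_C, aeval_C, algebraMap_eq, algebraMap_eq, map_C]
  | add p q hp hq => rw [map_add, map_add, hp, hq, map_add, map_add]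
  | mul_X p i hp =>
    rw [map_mul, map_mul, hp, map_mul, map_mul]
    congr 1
    unfold lin
    rw [aeval_X, map_X, aeval_X, map_sum]
    refine Finset.sum_congr rfl fun j _ => ?_
    rw [map_mul, map_C, map_X, Matrix.map_apply]

theorem lin_homog {R : Type} [CommRing R] (g : Matrix σ σ R) {G : MvPolynomial σ R} {m : ℕ}
    (hG : G.IsHomogeneous m) : (lin g G).IsHomogeneous m := by
  unfold lin
  have := hG.aeval (fun i => ∑ j, C (g i j) * X j) (n := 1) (by
    intro i
    refine IsHomogeneous.sum _ _ _ fun j _ => ?_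
    have h1 := (isHomogeneous_C σ (g i j)).mul (isHomogeneous_X R j)
    rwa [zero_add] at h1)
  rwa [one_mul] at this

variable [DecidableEq σ] {R : Type} [CommRing R] [Algebra ℂ R]

/-- The polynomial ring of the matrices with a candidate inverse of the determinant. -/
abbrev AT (σ : Type) (R : Type) [CommRing R] := MvPolynomial (Option (σ × σ)) R

/-- The generic matrix. -/
noncomputable def TT (σ R : Type) [CommRing R] : Matrix σ σ (AT σ R) :=
  Matrix.of fun i j => X (some (i, j))

/-- The equations of the algebra of the trivialisations. -/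
noncomputable def dd (I : Ideal (MvPolynomial σ ℂ)) (m₀ : ℕ)
    (π : ℕ → MvPolynomial σ R →ₗ[R] MvPolynomial σ R) : Ideal (AT σ R) :=
  Ideal.span ({z | z = X none * (TT σ R).det - 1} ∪
    {z | ∃ m ≥ m₀, ∃ G ∈ I, G.IsHomogeneous m ∧ ∃ α,
      z = coeff α (bc (π m) (C : R →+* AT σ R) (lin (TT σ R) (map (algebraMap ℂ (AT σ R)) G)))})

end

theorem pf_TrivAlg : StmtTrivAlg := by
  intro σ _ _ R _ _ J I x₀ m₀ hF
  classical
  -- the projectors
  have hπ : ∀ m, ∃ π : MvPolynomial σ R →ₗ[R] MvPolynomial σ R, m₀ ≤ m →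
      ∀ z : MvPolynomial σ R, z.IsHomogeneous m →
      (π z).IsHomogeneous m ∧ z - π z ∈ J ∧ (z ∈ J → π z = 0) := by
    intro m
    by_cases hm : m₀ ≤ m
    · obtain ⟨π, hπ⟩ := hF.split m hm
      exact ⟨π, fun _ => hπ⟩
    · exact ⟨0, fun h => absurd h hm⟩
  choose π hπ using hπ
  refine ⟨AT σ R ⧸ dd I m₀ π, inferInstance, inferInstance, inferInstance, inferInstance,
    inferInstance, ?_, ?_⟩
  · rintro k ⟨g, hg1, hg⟩
    set 𝔪 := RingHom.ker x₀ with h𝔪
    let q : R →+* R ⧸ 𝔪 ^ k := Ideal.Quotient.mk (𝔪 ^ k)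
    -- the determinant
    have hdet : IsUnit (q g.det) := by
      have h1 : x₀ g.det = 1 := by
        rw [AlgHom.map_det]
        have : x₀.mapMatrix g = 1 := by
          ext i j
          rw [AlgHom.mapMatrix_apply, Matrix.map_apply, hg1]
        rw [this, Matrix.det_one]
      have h2 : g.det - 1 ∈ 𝔪 := by
        rw [h𝔪, RingHom.mem_ker, map_sub, h1, map_one, sub_self]
      have h3 : IsNilpotent (q (g.det - 1)) := by
        refine ⟨k, ?_⟩
        rw [← map_pow]
        exact Ideal.Quotient.eq_zero_iff_mem.2 (Ideal.pow_mem_pow h2 k)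
      have h4 := h3.isUnit_one_add
      rwa [← map_one q, ← map_add, add_sub_cancel] at h4
    obtain ⟨v, hv⟩ := hdet.exists_left_inv
    let φ : AT σ R →ₐ[R] R ⧸ 𝔪 ^ k := aeval (fun o => o.elim v (fun p => q (g p.1 p.2)))
    have hφT : (TT σ R).map (φ : AT σ R →+* R ⧸ 𝔪 ^ k) = g.map q := by
      ext i j
      rw [Matrix.map_apply, Matrix.map_apply, TT, Matrix.of_apply]
      exact aeval_X _ _
    have hφC : (φ : AT σ R →+* R ⧸ 𝔪 ^ k).comp (C : R →+* AT σ R) = q := by
      ext a
      exact aeval_C _ _
    have hker : dd I m₀ π ≤ RingHom.ker (φ : AT σ R →+* R ⧸ 𝔪 ^ k) := by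
      unfold dd
      rw [Ideal.span_le]
      rintro z (hz | hz)
      · change z = X none * (TT σ R).det - 1 at hz
        rw [SetLike.mem_coe, RingHom.mem_ker, hz, map_sub, map_mul, map_one, RingHom.map_det,
          RingHom.mapMatrix_apply, hφT, ← RingHom.mapMatrix_apply, ← RingHom.map_det]
        have : (φ : AT σ R →+* R ⧸ 𝔪 ^ k) (X none) = v := aeval_X _ _
        rw [this, hv, sub_self]
      · obtain ⟨m, hm, G, hG, hGm, α, rfl⟩ := hz
        rw [SetLike.mem_coe, RingHom.mem_ker, ← coeff_map, bc_comp, map_lin, hφT, map_map, hφC]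
        have h1 : (φ : AT σ R →+* R ⧸ 𝔪 ^ k).comp (algebraMap ℂ (AT σ R)) =
            q.comp (algebraMap ℂ R) := by
          rw [← hφC, RingHom.comp_assoc]
          congr 1
        rw [h1, ← map_map, ← map_lin]
        have h2 := hg m hm G hG hGm
        have h3 : map q (lin g (map (algebraMap ℂ R) G)) ∈ J.map (map q) := by
          have h4 : (J ⊔ (𝔪 ^ k).map (C : R →+* MvPolynomial σ R)).map (map q) ≤ J.map (map q) := by
            rw [Ideal.map_sup, sup_le_iff]
            refine ⟨le_refl _, ?_⟩
            rw [Ideal.map_map, Ideal.map_le_iff_le_comap]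
            intro a ha
            rw [Ideal.mem_comap, RingHom.comp_apply, map_C]
            have : q a = 0 := Ideal.Quotient.eq_zero_iff_mem.2 ha
            rw [this, map_zero]
            exact Ideal.zero_mem _
          exact h4 (Ideal.mem_map_of_mem _ h2)
        have h5 : (map q (lin g (map (algebraMap ℂ R) G))).IsHomogeneous m :=
          (lin_homog g (hGm.map _)).map q
        rw [bc_eq_zero hF.homogJ (fun z hz hzJ => (hπ m hm z hz).2.2 hzJ) q h5 h3, coeff_zero]
    exact ⟨Ideal.Quotient.liftₐ _ φ fun a ha => hker ha⟩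
  · intro x y hxy
    let ψ : AT σ R →+* ℂ := (y : (AT σ R ⧸ dd I m₀ π) →+* ℂ).comp (Ideal.Quotient.mk _)
    have hψC : ψ.comp (C : R →+* AT σ R) = (x : R →+* ℂ) := by
      ext a
      exact hxy a
    have hψc : ψ.comp (algebraMap ℂ (AT σ R)) = RingHom.id ℂ := by
      ext c
      exact y.commutes c
    have hψd : ∀ z ∈ dd I m₀ π, ψ z = 0 := by
      intro z hz
      change y (Ideal.Quotient.mk _ z) = 0
      rw [Ideal.Quotient.eq_zero_iff_mem.2 hz, map_zero]
    set t : Matrix σ σ ℂ := (TT σ R).map ψ with ht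
    have hdet : t.det ≠ 0 := by
      have h1 := hψd (X none * (TT σ R).det - 1) (Ideal.subset_span (Or.inl rfl))
      rw [map_sub, map_mul, map_one, RingHom.map_det, RingHom.mapMatrix_apply] at h1
      intro h0
      rw [← ht, h0, mul_zero, zero_sub] at h1
      exact one_ne_zero (neg_eq_zero.1 h1)
    refine ⟨Matrix.GeneralLinearGroup.mkOfDetNeZero t hdet, fun m hm G hG hGm => ?_⟩
    change lin t G ∈ fibre J x
    have h1 : bc (π m) (x : R →+* ℂ) (lin t G) = 0 := by
      have h2 : lin t G = map ψ (lin (TT σ R) (map (algebraMap ℂ (AT σ R)) G)) := by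
        rw [map_lin, map_map, hψc, map_id]
      rw [h2, ← hψC, ← bc_comp]
      ext α
      rw [coeff_map, coeff_zero]
      apply hψd
      exact Ideal.subset_span (Or.inr ⟨m, hm, G, hG, hGm, α, rfl⟩)
    have h3 := sub_bc_mem (fun z hz => (hπ m hm z hz).2.1) (x : R →+* ℂ) (lin_homog t hGm)
    rw [h1, sub_zero] at h3
    exact h3

end Pool.Agent.Helper77.Rig
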